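import Pool.Agent.H17.BO.TargetsX

set_option autoImplicit false

namespace Pool.Agent.H78.BO

open MvPolynomial SC Pool.Agent.H27.LV Pool.Agent.H17.VG Pool.Agent.H17.BO

theorem pf_RS2 : T_RS2 := by
  intro K _ n d x b c hli P hP
  classical
  have hinj : LinearMap.ker (Fintype.linearCombination K (![x, b, c] : Fin 3 → Fin (n + 1) → K))
      = ⊥ := by
    rw [LinearMap.ker_eq_bot]
    exact hli.fintypeLinearCombination_injective
  obtain ⟨g, hg⟩ := LinearMap.exists_leftInverse_of_injective _ hinj
  have hgv : ∀ j : Fin 3, g ((![x, b, c] : Fin 3 → Fin (n + 1) → K) j) = Pi.single j 1 := by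
    intro j
    have h := LinearMap.congr_fun hg (Pi.single j 1)
    simpa [Fintype.linearCombination_apply, Pi.single_apply] using h
  let l : Fin 3 → MvPolynomial (Fin (n + 1)) K := fun u =>
    ∑ i, C (g (Pi.single i 1) u) * X i
  have hl : ∀ u, res2 x b c (l u) = Polynomial.C (g x u) + Polynomial.C (g b u) * Polynomial.X +
      Polynomial.C (g c u) * Polynomial.X ^ 2 := by
    intro u
    have key : ∀ v : Fin (n + 1) → K, g v u = ∑ i, g (Pi.single i 1) u * v i := by
      intro v
      conv_lhs => rw [← Finset.univ_sum_single v]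
      rw [map_sum, Finset.sum_apply]
      refine Finset.sum_congr rfl fun i _ => ?_
      have : (Pi.single i (v i) : Fin (n + 1) → K) = v i • Pi.single i 1 := by
        rw [← Pi.single_smul]
        simp
      rw [this, map_smul, Pi.smul_apply, smul_eq_mul, mul_comm]
    simp only [res2, l, map_sum, map_mul, aeval_X, key x, key b, key c]
    simp only [Finset.sum_mul, ← Finset.sum_add_distrib]
    refine Finset.sum_congr rfl fun i _ => ?_
    rw [show (aeval fun i => Polynomial.C (x i) + Polynomial.C (b i) * Polynomial.X +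
      Polynomial.C (c i) * Polynomial.X ^ 2) (C (g (Pi.single i 1) u)) =
      Polynomial.C (g (Pi.single i 1) u) from MvPolynomial.aeval_C _ _]
    ring
  have h0 : res2 x b c (l 0) = 1 := by
    have h1 : g x = Pi.single 0 1 := hgv 0
    have h2 : g b = Pi.single 1 1 := hgv 1
    have h3 : g c = Pi.single 2 1 := hgv 2
    rw [hl, h1, h2, h3]; simp
  have h1' : res2 x b c (l 1) = Polynomial.X := by
    have h1 : g x = Pi.single 0 1 := hgv 0
    have h2 : g b = Pi.single 1 1 := hgv 1
    have h3 : g c = Pi.single 2 1 := hgv 2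
    rw [hl, h1, h2, h3]; simp
  have h2' : res2 x b c (l 2) = Polynomial.X ^ 2 := by
    have h1 : g x = Pi.single 0 1 := hgv 0
    have h2 : g b = Pi.single 1 1 := hgv 1
    have h3 : g c = Pi.single 2 1 := hgv 2
    rw [hl, h1, h2, h3]; simp
  have hhom : ∀ u, (l u).IsHomogeneous 1 := by
    intro u
    refine IsHomogeneous.sum _ _ _ fun i _ => ?_
    have := (isHomogeneous_C (Fin (n + 1)) (g (Pi.single i 1) u)).mul
      (isHomogeneous_X K i)
    simpa using this
  let w : ℕ → MvPolynomial (Fin (n + 1)) K := fun r =>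
    l 0 ^ (d - r / 2 - r % 2) * l 1 ^ (r % 2) * l 2 ^ (r / 2)
  have hw : ∀ r, res2 x b c (w r) = Polynomial.X ^ r := by
    intro r
    have e0 : res2 x b c (w r) = res2 x b c (l 0) ^ (d - r / 2 - r % 2) *
        res2 x b c (l 1) ^ (r % 2) * res2 x b c (l 2) ^ (r / 2) := by
      simp only [res2, w, map_mul, map_pow]
    rw [e0, h0, h1', h2', one_pow, one_mul, ← pow_mul, ← pow_add]
    congr 1
    omega
  refine ⟨∑ r ∈ Finset.range (2 * d + 1), C (P.coeff r) * w r, ?_, ?_⟩
  · refine IsHomogeneous.sum _ _ _ fun r hr => ?_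
    have hr' : r < 2 * d + 1 := Finset.mem_range.1 hr
    have h := (isHomogeneous_C (Fin (n + 1)) (P.coeff r)).mul
      ((((hhom 0).pow (d - r / 2 - r % 2)).mul ((hhom 1).pow (r % 2))).mul ((hhom 2).pow (r / 2)))
    have e : 0 + (1 * (d - r / 2 - r % 2) + 1 * (r % 2) + 1 * (r / 2)) = d := by omega
    rw [e] at h
    exact h
  · have e1 : res2 x b c (∑ r ∈ Finset.range (2 * d + 1), C (P.coeff r) * w r) =
        ∑ r ∈ Finset.range (2 * d + 1), Polynomial.C (P.coeff r) * res2 x b c (w r) := by
      simp only [res2, map_sum, map_mul]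
      refine Finset.sum_congr rfl fun r _ => ?_
      rw [show (aeval fun i => Polynomial.C (x i) + Polynomial.C (b i) * Polynomial.X +
        Polynomial.C (c i) * Polynomial.X ^ 2) (C (P.coeff r)) =
        Polynomial.C (P.coeff r) from MvPolynomial.aeval_C _ _]
    rw [e1]
    simp only [hw]
    exact (P.as_sum_range_C_mul_X_pow' (by omega)).symm

end Pool.Agent.H78.BO
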