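import Pool.Agent.H65.BO.Targets

/-!
# MP_f4fb69_gt, row APP of the board borf: finite and infinite sequences
-/

set_option autoImplicit false

open Set Filter Topology

namespace Pool.Agent.H78.BO

open Pool.Agent.H65.BO

theorem pre_cns (x : Bool) (t : C) (i : ℕ) : pre (cns x t) (i + 1) = pre t i ++ [x] := by
  induction i with
  | zero => rfl
  | succ i ih =>
    have h : pre (cns x t) (i + 1 + 1) = t i :: pre (cns x t) (i + 1) := rfl
    rw [h, ih]
    rfl

theorem pre_app (l : List Bool) : ∀ (t : C) (i : ℕ),
    pre (app l t) (l.length + i) = pre t i ++ l := by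
  induction l with
  | nil =>
    intro t i
    simp [app]
  | cons x l ih =>
    intro t i
    have h : (x :: l).length + i = l.length + (i + 1) := by
      rw [List.length_cons]
      omega
    rw [h]
    show pre (app l (cns x t)) (l.length + (i + 1)) = pre t i ++ x :: l
    rw [ih, pre_cns]
    simp

theorem length_pre (b : C) (n : ℕ) : (pre b n).length = n := by
  induction n with
  | zero => rfl
  | succ n ih =>
    show (b n :: pre b n).length = n + 1
    rw [List.length_cons, ih]

theorem pre_inj {b c : C} {n : ℕ} (h : pre b n = pre c n) : ∀ i < n, b i = c i := by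
  induction n with
  | zero => intro i hi; omega
  | succ n ih =>
    have h1 : b n :: pre b n = c n :: pre c n := h
    rw [List.cons.injEq] at h1
    intro i hi
    rcases Nat.lt_or_ge i n with h2 | h2
    · exact ih h1.2 i h2
    · have : i = n := by omega
      rw [this]
      exact h1.1

theorem app_pre (b : C) (n : ℕ) : app (pre b n) (fun i => b (n + i)) = b := by
  induction n with
  | zero =>
    show (fun i => b (0 + i)) = b
    funext i
    rw [Nat.zero_add]
  | succ n ih =>
    show app (pre b n) (cns (b n) fun i => b (n + 1 + i)) = b
    have h : (cns (b n) fun i => b (n + 1 + i)) = fun i => b (n + i) := by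
      funext i
      cases i with
      | zero => rfl
      | succ i =>
        show b (n + 1 + i) = b (n + (i + 1))
        congr 1
        omega
    rw [h, ih]

theorem cns_cont (x : Bool) : Continuous (cns x) := by
  refine continuous_pi fun n => ?_
  cases n with
  | zero => exact continuous_const
  | succ n => exact continuous_apply n

theorem cns_inj (x : Bool) : Function.Injective (cns x) := by
  intro t t' h
  funext n
  exact congrFun h (n + 1)

theorem cns_open (x : Bool) : IsOpenMap (cns x) := by
  intro U hU
  have h : cns x '' U = {b | b 0 = x} ∩ (fun (b : C) (n : ℕ) => b (n + 1)) ⁻¹' U := by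
    ext b
    constructor
    · rintro ⟨t, ht, rfl⟩
      exact ⟨rfl, ht⟩
    · rintro ⟨h0, h1⟩
      refine ⟨fun n => b (n + 1), h1, ?_⟩
      funext n
      cases n with
      | zero => exact h0.symm
      | succ n => rfl
  rw [h]
  apply IsOpen.inter
  · have : {b : C | b 0 = x} = (fun b : C => b 0) ⁻¹' {x} := rfl
    rw [this]
    exact (isOpen_discrete _).preimage (continuous_apply 0)
  · exact hU.preimage (continuous_pi fun n => continuous_apply (n + 1))

theorem app_all (l : List Bool) :
    Continuous (app l) ∧ IsOpenMap (app l) ∧ Function.Injective (app l) := by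
  induction l with
  | nil =>
    have h : app [] = id := rfl
    rw [h]
    exact ⟨continuous_id, IsOpenMap.id, Function.injective_id⟩
  | cons x l ih =>
    have h : app (x :: l) = app l ∘ cns x := rfl
    rw [h]
    exact ⟨ih.1.comp (cns_cont x), ih.2.1.comp (cns_open x), ih.2.2.comp (cns_inj x)⟩

theorem range_app (l : List Bool) : range (app l) = {b | pre b l.length = l} := by
  ext b
  constructor
  · rintro ⟨t, rfl⟩
    have h := pre_app l t 0
    simpa [pre] using h
  · intro h
    have h' : pre b l.length = l := h
    refine ⟨fun i => b (l.length + i), ?_⟩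
    have := app_pre b l.length
    rwa [h'] at this

theorem pf_APP : T_APP := by
  refine ⟨pre_app, app_all, range_app, fun l => ?_, fun U hU b hb => ?_⟩
  · exact ⟨(isCompact_range (app_all l).1).isClosed, (app_all l).2.1.isOpen_range⟩
  · obtain ⟨I, u, hu, hs⟩ := isOpen_pi_iff.1 hU b hb
    refine ⟨I.sup id + 1, ?_⟩
    rw [range_app]
    intro c hc
    have hc' : pre c (pre b (I.sup id + 1)).length = pre b (I.sup id + 1) := hc
    rw [length_pre] at hc'
    apply hs
    intro i hi
    have h1 : i ≤ I.sup id := Finset.le_sup (f := id) hi
    rw [pre_inj hc' i (by omega)]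
    exact (hu i hi).2

end Pool.Agent.H78.BO
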