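import Pool.Agent.H17.VG.TargetsE

set_option autoImplicit false

noncomputable section

namespace Pool.Agent.H78.BO

open MvPolynomial SC Pool.Agent.H27.LV Pool.Agent.H17.VG

open TensorProduct in
theorem exists_ext {k K L : Type} [Field k] [Field K] [Field L] [Algebra k K] [Algebra k L]
    [Algebra K L] [IsScalarTower k K L] [Algebra.FormallyEtale K L] (D : Derivation k K K) :
    ∃ D' : Derivation k L L, ∀ z : K, D' (algebraMap K L z) = algebraMap K L (D z) := by
  let D0 : Derivation k K L := (Algebra.linearMap K L).compDer D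
  let l : L ⊗[K] (Ω[K⁄k]) →ₗ[L] L := D0.liftKaehlerDifferential.liftBaseChange L
  let e := KaehlerDifferential.tensorKaehlerEquivOfFormallyEtale k K L
  refine ⟨(l ∘ₗ e.symm.toLinearMap).compDer (KaehlerDifferential.D k L), fun z => ?_⟩
  change l (e.symm (KaehlerDifferential.D k L (algebraMap K L z))) = _
  rw [KaehlerDifferential.tensorKaehlerEquivOfFormallyEtale_symm_D_algebraMap]
  rw [LinearMap.liftBaseChange_tmul, one_smul, Derivation.liftKaehlerDifferential_comp_D]
  rfl

theorem aux {k K L : Type} [Field k] [CharZero k] [Field K] [Field L] [Algebra k K]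
    [Algebra k L] [Algebra K L] [IsScalarTower k K L] [Algebra.EssFiniteType k K]
    (htr : Algebra.trdeg k K = 1) (D : Derivation k K K) (hD : D ≠ 0) (U : Polynomial K)
    (hU : U.Separable) [U.IsSplittingField K L] :
    ∃ (_ : FiniteDimensional K L) (_ : Algebra.EssFiniteType k L) (D' : Derivation k L L),
    Algebra.trdeg k L = 1 ∧ IsGalois K L ∧ D' ≠ 0 ∧
    (∀ z : K, D' (algebraMap K L z) = algebraMap K L (D z)) ∧
    Polynomial.Splits (U.map (algebraMap K L)) := by
  have hK : CharZero K := charZero_of_injective_algebraMap (algebraMap k K).injective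
  have fin : FiniteDimensional K L := Polynomial.IsSplittingField.finiteDimensional L U
  have hal : Algebra.IsAlgebraic K L := inferInstance
  have ess : Algebra.EssFiniteType k L := Algebra.EssFiniteType.comp k K L
  have hsep : Algebra.IsSeparable K L := inferInstance
  have het : Algebra.FormallyEtale K L := Algebra.FormallyEtale.of_isSeparable _ _
  obtain ⟨D', hD'⟩ := exists_ext (L := L) D
  refine ⟨fin, ess, D', ?_, ?_, ?_, hD', ?_⟩
  · have h := _root_.trdeg_add_eq k K (A := L)
    rw [(_root_.trdeg_eq_zero : Algebra.trdeg K L = 0), add_zero] at h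
    rw [← h, htr]
  · exact IsGalois.of_separable_splitting_field hU
  · intro h0
    apply hD
    ext z
    have h := hD' z
    rw [h0] at h
    have h2 : algebraMap K L (D z) = 0 := by rw [← h]; rfl
    exact (map_eq_zero _).1 h2
  · exact Polynomial.IsSplittingField.splits L U

theorem pf_SP : T_SP := by
  intro k K _ _ _ _ _ _ htr D hD U hU
  obtain ⟨fin, ess, D', h1, h2, h3, h4, h5⟩ :=
    aux (L := U.SplittingField) htr D hD U hU
  exact ⟨U.SplittingField, inferInstance, inferInstance, inferInstance, inferInstance, fin, ess,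
    D', h1, h2, h3, h4, h5⟩

end Pool.Agent.H78.BO
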