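import Pool.Agent.H65.BO.Targets

/-!
# MP_f4fb69_gt, row TRF of the board borf: comeager sets and open embeddings
-/

set_option autoImplicit false

open Set Filter Topology

namespace Pool.Agent.H78.BO

open Pool.Agent.H65.BO

theorem pf_TRF (hAPP : T_APP) : T_TRF := by
  intro l l' S hS
  obtain ⟨-, hall, -, hclo, -⟩ := hAPP
  obtain ⟨hc, ho, hi⟩ := hall l
  obtain ⟨hc', ho', hi'⟩ := hall l'
  set h : C × C → C × C := Prod.map (app l) (app l') with hh
  have hcont : Continuous h := hc.prodMap hc'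
  have hopen : IsOpenMap h := ho.prodMap ho'
  have hinj : Function.Injective h := hi.prodMap hi'
  have hrange : IsClosed (range h) := by
    rw [hh, Set.range_prodMap]
    exact (hclo l).1.prod (hclo l').1
  rw [mem_residual_iff] at hS ⊢
  obtain ⟨F, hF1, hF2, hF3, hF4⟩ := hS
  refine ⟨(fun O => h '' O ∪ (range h)ᶜ) '' F, ?_, ?_, hF3.image _, ?_⟩
  · rintro _ ⟨O, hO, rfl⟩
    exact (hopen O (hF1 O hO)).union hrange.isOpen_compl
  · rintro _ ⟨O, hO, rfl⟩
    rw [dense_iff_inter_open]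
    intro W hW hWne
    by_cases hW2 : (W ∩ range h).Nonempty
    · obtain ⟨_, hyW, ⟨y, rfl⟩⟩ := hW2
      obtain ⟨z, hz1, hz2⟩ := (hF2 O hO).inter_open_nonempty (h ⁻¹' W) (hW.preimage hcont)
        ⟨y, hyW⟩
      exact ⟨h z, hz1, Or.inl ⟨z, hz2, rfl⟩⟩
    · obtain ⟨y, hy⟩ := hWne
      exact ⟨y, hy, Or.inr fun hr => hW2 ⟨y, hy, hr⟩⟩
  · intro p hp t t' hpt
    apply hF4
    rw [mem_sInter]
    intro O hO
    have h1 : p ∈ h '' O ∪ (range h)ᶜ := by
      rw [mem_sInter] at hp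
      exact hp _ ⟨O, hO, rfl⟩
    have h2 : p = h (t, t') := hpt
    rcases h1 with ⟨z, hz, hzp⟩ | h1
    · have : z = (t, t') := hinj (hzp.trans h2)
      rwa [← this]
    · exact absurd ⟨(t, t'), h2.symm⟩ h1

end Pool.Agent.H78.BO
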